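import Pool.Agent.H362.MH.Main

set_option autoImplicit false

/-!
The region of the heavy fluid, and the continuity of the force.
-/

open MeasureTheory Set Filter Topology
open scoped InnerProductSpace ENNReal ContDiff NNReal

namespace Pool.Agent.H362.MH

open H772R2.NS N979MH

variable (P : Par)

/-- one piece of the region of the heavy fluid -/
def cell (j : ℕ) : Set E3 := P.shell j ∩ {x | 0 < (zc x ^ P.k j).re}

/-- the region of the heavy fluid -/
def heavy : Set E3 := ⋃ j, cell P j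

theorem k_pos (j : ℕ) : 0 < P.k j := by
  unfold Par.k
  have := P.hk
  positivity

theorem re_pos_iff (j : ℕ) (x : E3) : 0 < (uz x ^ P.k j).re ↔ 0 < (zc x ^ P.k j).re := by
  by_cases h0 : zc x = 0
  · simp [uz, h0]
  · have hn : 0 < ‖zc x‖ := norm_pos_iff.mpr h0
    have h1 : uz x ^ P.k j = ((‖zc x‖ ^ P.k j)⁻¹ : ℝ) * zc x ^ P.k j := by
      unfold uz
      rw [div_pow, div_eq_mul_inv, mul_comm]
      push_cast
      rfl
    rw [h1, Complex.re_ofReal_mul]
    have : 0 < (‖zc x‖ ^ P.k j)⁻¹ := by positivity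
    exact ⟨fun h => by nlinarith [(mul_pos_iff_of_pos_left this).1 h], fun h => mul_pos this h⟩

theorem mem_heavy (x : E3) : x ∈ heavy P ↔ ∃ j, x ∈ P.shell j ∧ 0 < (uz x ^ P.k j).re := by
  simp only [heavy, mem_iUnion, cell, mem_inter_iff]
  refine exists_congr fun j => and_congr_right fun _ => ?_
  exact (re_pos_iff P j x).symm

theorem rho0_heavy {x : E3} (h : x ∈ heavy P) : P.rho0 x = 2 := by
  unfold Par.rho0
  rw [if_pos ((mem_heavy P x).1 h)]

theorem rho0_light {x : E3} (h : x ∉ heavy P) : P.rho0 x = 1 := by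
  unfold Par.rho0
  rw [if_neg fun h' => h ((mem_heavy P x).2 h')]

theorem isOpen_shell (j : ℕ) : IsOpen (P.shell j) := by
  unfold Par.shell
  exact (isOpen_lt continuous_const (continuous_norm.pow 2)).inter
    (isOpen_lt (continuous_norm.pow 2) continuous_const)

theorem cont_re (j : ℕ) : Continuous fun x : E3 => (zc x ^ P.k j).re :=
  Complex.continuous_re.comp (Conv.continuous_zc.pow _)

theorem isOpen_cell (j : ℕ) : IsOpen (cell P j) :=
  (isOpen_shell P j).inter (isOpen_lt continuous_const (cont_re P j))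

theorem isOpen_heavy : IsOpen (heavy P) := isOpen_iUnion fun j => isOpen_cell P j

theorem closure_cell (j : ℕ) :
    closure (cell P j) ⊆ {x | P.r j ^ 2 / 2 ≤ ‖x‖ ^ 2 ∧ ‖x‖ ^ 2 ≤ 3 * P.r j ^ 2 / 2 ∧
      0 ≤ (zc x ^ P.k j).re} := by
  refine closure_minimal ?_ ?_
  · rintro x ⟨⟨h1, h2⟩, h3⟩
    exact ⟨h1.le, h2.le, le_of_lt h3⟩
  · have c1 : IsClosed {x : E3 | P.r j ^ 2 / 2 ≤ ‖x‖ ^ 2} :=
      isClosed_le continuous_const (continuous_norm.pow 2)
    have c2 : IsClosed {x : E3 | ‖x‖ ^ 2 ≤ 3 * P.r j ^ 2 / 2} :=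
      isClosed_le (continuous_norm.pow 2) continuous_const
    have c3 : IsClosed {x : E3 | 0 ≤ (zc x ^ P.k j).re} := isClosed_le continuous_const (cont_re P j)
    exact (c1.inter (c2.inter c3))

/-- the null set that contains the boundary of a cell -/
def wall (j : ℕ) : Set E3 := Metric.sphere 0 (Real.sqrt (P.r j ^ 2 / 2)) ∪
  (Metric.sphere 0 (Real.sqrt (3 * P.r j ^ 2 / 2)) ∪ {x | (zc x ^ P.k j).re = 0})

theorem wall_null (j : ℕ) : volume (wall P j) = 0 := by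
  refine measure_union_null ?_ (measure_union_null ?_ (Conv.null_zc _))
  · exact Measure.addHaar_sphere _ _ _
  · exact Measure.addHaar_sphere _ _ _

theorem frontier_cell (j : ℕ) {x : E3} (h : x ∈ closure (cell P j)) (h' : x ∉ cell P j) :
    x ∈ wall P j := by
  obtain ⟨h1, h2, h3⟩ := closure_cell P j h
  rcases h1.eq_or_lt with e1 | e1
  · left
    rw [mem_sphere_zero_iff_norm, e1, Real.sqrt_sq (norm_nonneg _)]
  rcases h2.eq_or_lt with e2 | e2
  · right; left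
    rw [mem_sphere_zero_iff_norm, ← e2, Real.sqrt_sq (norm_nonneg _)]
  rcases h3.eq_or_lt with e3 | e3
  · right; right
    exact e3.symm
  exact absurd ⟨⟨e1, e2⟩, e3⟩ h'

theorem r_tendsto : Tendsto (fun j => 3 * P.r j ^ 2 / 2) atTop (𝓝 0) := by
  have h1 : Tendsto (fun j : ℕ => (1 / 2 : ℝ) ^ j) atTop (𝓝 0) :=
    tendsto_pow_atTop_nhds_zero_of_lt_one (by norm_num) (by norm_num)
  have h2 : Tendsto (fun j => P.r j) atTop (𝓝 0) := by
    have := h1.const_mul P.r0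
    rw [mul_zero] at this
    refine this.congr fun j => ?_
    unfold Par.r
    rw [one_div, inv_pow, div_eq_mul_inv]
  have h3 := ((h2.pow 2).const_mul 3).div_const 2
  simpa using h3

theorem frontier_heavy : frontier (heavy P) ⊆ {0} ∪ ⋃ j, wall P j := by
  rw [(isOpen_heavy P).frontier_eq]
  rintro x ⟨hx, hx'⟩
  by_cases h0 : x = 0
  · left; exact h0
  right
  have hpos : 0 < ‖x‖ ^ 2 := by
    have := norm_pos_iff.mpr h0
    positivity
  obtain ⟨N, hN⟩ := eventually_atTop.1 ((r_tendsto P).eventually_lt_const (half_pos hpos))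
  have hV : IsOpen {y : E3 | ‖x‖ ^ 2 / 2 < ‖y‖ ^ 2} :=
    isOpen_lt continuous_const (continuous_norm.pow 2)
  have hxV : x ∈ {y : E3 | ‖x‖ ^ 2 / 2 < ‖y‖ ^ 2} := half_lt_self hpos
  have h1 : x ∈ closure ({y : E3 | ‖x‖ ^ 2 / 2 < ‖y‖ ^ 2} ∩ heavy P) := hV.inter_closure ⟨hxV, hx⟩
  have h2 : {y : E3 | ‖x‖ ^ 2 / 2 < ‖y‖ ^ 2} ∩ heavy P ⊆ ⋃ j ∈ Finset.range N, cell P j := by
    rintro y ⟨hy, hy'⟩
    obtain ⟨j, hj⟩ := mem_iUnion.1 hy'
    refine mem_iUnion₂.2 ⟨j, ?_, hj⟩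
    by_contra hc
    have hjN : N ≤ j := by simpa using hc
    have h3 := hN j hjN
    have h4 := hj.1.2
    have h5 : ‖x‖ ^ 2 / 2 < ‖y‖ ^ 2 := hy
    linarith
  have h3 := closure_mono h2 h1
  rw [Finset.closure_biUnion] at h3
  obtain ⟨j, -, hj⟩ := mem_iUnion₂.1 h3
  exact mem_iUnion.2 ⟨j, frontier_cell P j hj fun h => hx' (mem_iUnion.2 ⟨j, h⟩)⟩

theorem frontier_null : volume (frontier (heavy P)) = 0 := by
  refine measure_mono_null (frontier_heavy P) (measure_union_null (measure_singleton _) ?_)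
  exact measure_iUnion_null fun j => wall_null P j

theorem r_le' (j : ℕ) : P.r j ^ 2 ≤ P.r0 ^ 2 :=
  pow_le_pow_left₀ (Conv.r_pos P j).le (FF.r_le P j) 2

theorem closure_heavy : closure (heavy P) ⊆ Metric.ball 0 P.d := by
  have h1 : heavy P ⊆ {x | ‖x‖ ^ 2 ≤ 3 * P.r0 ^ 2 / 2} := by
    intro x hx
    obtain ⟨j, hj⟩ := mem_iUnion.1 hx
    have h2 := hj.1.2
    have h3 := r_le' P j
    show ‖x‖ ^ 2 ≤ 3 * P.r0 ^ 2 / 2
    linarith
  have h2 : IsClosed {x : E3 | ‖x‖ ^ 2 ≤ 3 * P.r0 ^ 2 / 2} :=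
    isClosed_le (continuous_norm.pow 2) continuous_const
  intro x hx
  have h3 : ‖x‖ ^ 2 ≤ 3 * P.r0 ^ 2 / 2 := closure_minimal h1 h2 hx
  rw [mem_ball_zero_iff]
  have h4 := P.hrd
  have h5 := P.hr
  have h6 := P.hd
  have h7 : ‖x‖ ^ 2 < P.d ^ 2 := by nlinarith
  exact lt_of_pow_lt_pow_left₀ 2 h6.le h7

/-- the point `(s, 0, 0)` -/
noncomputable def pt (s : ℝ) : E3 := EuclideanSpace.single 0 s

theorem norm_pt (s : ℝ) : ‖pt s‖ = |s| := by
  unfold pt
  rw [PiLp.norm_single, Real.norm_eq_abs]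

theorem zc_pt (s : ℝ) : zc (pt s) = (s : ℂ) := by
  apply Complex.ext <;> simp [zc, pt]

theorem heavy_nonempty : (heavy P).Nonempty := by
  refine ⟨pt P.r0, mem_iUnion.2 ⟨0, ⟨?_, ?_⟩, ?_⟩⟩
  · have h1 : P.r 0 = P.r0 := by simp [Par.r]
    show P.r 0 ^ 2 / 2 < ‖pt P.r0‖ ^ 2
    rw [norm_pt, sq_abs, h1]
    have := P.hr
    nlinarith [pow_pos this 2]
  · have h1 : P.r 0 = P.r0 := by simp [Par.r]
    show ‖pt P.r0‖ ^ 2 < 3 * P.r 0 ^ 2 / 2
    rw [norm_pt, sq_abs, h1]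
    have := P.hr
    nlinarith [pow_pos this 2]
  · show 0 < (zc (pt P.r0) ^ P.k 0).re
    rw [zc_pt, ← Complex.ofReal_pow, Complex.ofReal_re]
    have := P.hr
    positivity

theorem light_nonempty : (Metric.closedBall 0 (2 * P.d) \ closure (heavy P)).Nonempty := by
  refine ⟨pt P.d, ?_, fun h => ?_⟩
  · rw [mem_closedBall_zero_iff, norm_pt, abs_of_pos P.hd]
    linarith [P.hd]
  · have := closure_heavy P h
    rw [mem_ball_zero_iff, norm_pt, abs_of_pos P.hd] at this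
    exact lt_irrefl _ this

/-! ### the force -/

theorem f_cont : Continuous fun p : ℝ × E3 => P.f p.1 p.2 := by
  obtain ⟨C, hC0, hC⟩ := FF.fs_bd prof_holds bump_holds
  have hA := FF.A_pos P 0
  have hT := P.hT
  have hr0 := P.hr
  have hs : Summable fun j : ℕ => (8 * P.A 0 / P.T * (C * (P.r0 ^ 4)⁻¹)) * (1 / 3 : ℝ) ^ j :=
    (summable_geometric_of_lt_one (by norm_num) (by norm_num)).mul_left _
  unfold Par.f
  refine continuous_tsum (fun j => ?_) hs ?_
  · exact ((FF.F_cont bump_holds j).comp continuous_fst).smul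
      ((FF.fs_cont prof_holds bump_holds P j).comp continuous_snd)
  · rintro j ⟨s, x⟩
    rw [norm_smul, Real.norm_eq_abs, abs_of_nonneg (FF.F_nonneg bump_holds j s)]
    have h1 : (P.r j ^ 4)⁻¹ = 16 ^ j * (P.r0 ^ 4)⁻¹ := by
      unfold Par.r
      rw [div_pow, inv_div, ← pow_mul, mul_comm j 4, pow_mul]
      norm_num
      rw [div_eq_mul_inv]
    calc P.F j s * ‖P.fs j x‖
        ≤ (8 * P.A 0 / P.T * (1 / 48) ^ j) * (C * (P.r j ^ 4)⁻¹) :=
          mul_le_mul (FF.F_le bump_holds j s) (hC P j x) (norm_nonneg _) (by positivity)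
      _ = (8 * P.A 0 / P.T * (C * (P.r0 ^ 4)⁻¹)) * ((1 / 48) ^ j * 16 ^ j) := by
          rw [h1]; ring
      _ = (8 * P.A 0 / P.T * (C * (P.r0 ^ 4)⁻¹)) * (1 / 3) ^ j := by
          rw [← mul_pow]; norm_num

theorem f_time {s : ℝ} {x : E3} (h : P.f s x ≠ 0) : s ∈ Icc 0 P.T := by
  rcases FF.f_cases (P := P) bump_holds s with h0 | ⟨j, hj, -⟩
  · exact absurd (by rw [h0]; rfl) h
  · refine ⟨(FF.t_pos P (j + 1)).le.trans hj.1, hj.2.trans ?_⟩
    have := FF.t_anti P (Nat.zero_le j)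
    rwa [FF.t_zero] at this

theorem f_tsupport : tsupport (fun p : ℝ × E3 => P.f p.1 p.2) ⊆
    Icc 0 P.T ×ˢ Metric.closedBall 0 P.d := by
  refine closure_minimal ?_ (isClosed_Icc.prod Metric.isClosed_closedBall)
  rintro ⟨s, x⟩ h
  refine ⟨f_time P h, ?_⟩
  rw [mem_closedBall_zero_iff]
  have h1 := FF.f_supp prof_holds bump_holds s (x := x) (P := P) h
  have := P.hrd
  have := P.hr
  show ‖x‖ ≤ P.d
  linarith

theorem f_compact : HasCompactSupport (fun p : ℝ × E3 => P.f p.1 p.2) :=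
  HasCompactSupport.of_support_subset_isCompact (isCompact_Icc.prod (isCompact_closedBall _ _))
    ((subset_tsupport _).trans (f_tsupport P))

end Pool.Agent.H362.MH
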