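import Mathlib
import Pool.Graph.R_pool_sql_team_seeded_63374d34.N979.MH.Fin2
import Pool.Graph.R_pool_sql_team_seeded_63374d34.N979.MH.Prof
import Pool.Graph.R_pool_sql_team_seeded_63374d34.N979.MH.Bump
import Pool.Graph.R_pool_sql_team_seeded_63374d34.N979.MH.WFacts
import Pool.Graph.R_pool_sql_team_seeded_63374d34.N979.MH.ForceFacts
import Pool.Graph.R_pool_sql_team_seeded_63374d34.N979.MH.ForceL
import Pool.Graph.R_pool_sql_team_seeded_63374d34.N979.MH.Poinc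
import Pool.Graph.R_pool_sql_team_seeded_63374d34.N979.MH.I1
import Pool.Graph.R_pool_sql_team_seeded_63374d34.N979.MH.Traj
import Pool.Graph.R_pool_sql_team_seeded_63374d34.N979.MH.D6
import Pool.Graph.R_pool_sql_team_seeded_63374d34.N979.MH.I2
import Pool.Graph.R_pool_sql_team_seeded_63374d34.N979.MH.I4
import Pool.Graph.R_pool_sql_team_seeded_63374d34.N558.MH.EN
import Pool.Graph.R_pool_sql_team_seeded_63374d34.N979.MH.Boot
import Pool.Graph.R_pool_sql_team_seeded_63374d34.N979.MH.Est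
import Pool.Graph.R_pool_sql_team_seeded_63374d34.N979.MH.Flow
import Pool.Graph.R_pool_sql_team_seeded_63374d34.N979.MH.Gal
import Pool.Graph.R_pool_sql_team_seeded_63374d34.N979.MH.JLev
import Pool.Graph.R_pool_sql_team_seeded_63374d34.N979.MH.A1
import Pool.Graph.R_pool_sql_team_seeded_63374d34.N979.MH.A2
import Pool.Graph.R_pool_sql_team_seeded_63374d34.N979.MH.A3
import Pool.Graph.R_pool_sql_team_seeded_63374d34.N979.MH.A4
import Pool.Graph.R_pool_sql_team_seeded_63374d34.N979.MH.Mul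
import Pool.Graph.R_pool_sql_team_seeded_63374d34.N979.MH.DPL
import Pool.Graph.R_pool_sql_team_seeded_63374d34.N979.MH.LimJ
import Pool.Graph.R_pool_sql_team_seeded_63374d34.N979.MH.Lim
import Pool.Graph.R_pool_sql_team_seeded_63374d34.N979.MH.Conv
import Pool.Graph.R_pool_sql_team_seeded_63374d34.N979.MH.Dense
import Pool.Graph.R_pool_sql_team_seeded_63374d34.N979.MH.Basis
import Pool.Graph.R_pool_sql_team_seeded_63374d34.N979.MH.TestR
import Pool.Graph.R_pool_sql_team_seeded_63374d34.N979.MH.TestM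

set_option autoImplicit false

/-!
Non-uniqueness for two fluids: the modules of library project N979/MH put together, with the explicit data.
-/

open MeasureTheory Set Filter Topology
open scoped InnerProductSpace ENNReal ContDiff NNReal

namespace Pool.Agent.H362.MH

open H772R2.NS N979MH

theorem force : StmForce := force_holds prof_holds bump_holds

theorem est : StmEst :=
  est_holds prof_holds bump_holds (w_holds prof_holds) force poinc_holds
    (i1_holds prof_holds bump_holds) (traj_holds prof_holds bump_holds) d6_holds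
    (i2_holds prof_holds bump_holds) (i4_holds (w_holds prof_holds) poinc_holds) en_holds
    (boot_holds bump_holds)

theorem lim : StmLim :=
  lim_holds (j_holds en_holds mul_holds)
    (limJ_holds a1a_holds a2_holds (a3_holds a1a_holds a1b_holds a2_holds) (a4_holds a1a_holds)
      mul_holds mulA_holds dpl_holds)

theorem gal : StmGal := gal_holds flow_holds


/-- The conductivity plays no role when the magnetic field vanishes. -/
theorem change_sigma {Ω : Set E3} {T : ℝ} {η σ : ℝ → ℝ} {f : ℝ → L2V Ω} {ρ₀ : L2S Ω}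
    {u₀ B₀ : L2V Ω} {ρ : ℝ → L2S Ω} {u : ℝ → L2V Ω} {G : ℝ → L2M Ω} (σ' : ℝ → ℝ)
    (h : IsMHDSolution Ω T η σ f ρ₀ u₀ B₀ ρ u (fun _ => 0) G (fun _ => 0)) :
    IsMHDSolution Ω T η σ' f ρ₀ u₀ B₀ ρ u (fun _ => 0) G (fun _ => 0) where
  dens_bdd := h.dens_bdd
  dens_cont := h.dens_cont
  dens_init := h.dens_init
  dens_eqn := h.dens_eqn
  u_bdd := h.u_bdd
  u_sol := h.u_sol
  u_wcont := h.u_wcont
  u_grad := h.u_grad
  u_gradL2 := h.u_gradL2
  B_bdd := h.B_bdd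
  B_sol := h.B_sol
  B_wcont := h.B_wcont
  B_grad := h.B_grad
  B_gradL2 := h.B_gradL2
  momentum := h.momentum
  induction := by
    intro φ h1 h2 h3
    rw [← h.induction φ h1 h2 h3]
    have hzM : ((0 : L2M Ω) : E3 → M3) =ᵐ[volume.restrict Ω] 0 := Lp.coeFn_zero _ _ _
    refine integral_congr_ae (Eventually.of_forall fun t => ?_)
    refine integral_congr_ae ?_
    filter_upwards [hzM] with x hx
    rw [hx]
    simp [curlM_zero]

/-- The two solutions, with the explicit data. -/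
theorem two (Ω : Set E3) (hΩ : IsOpen Ω) (hb : Bornology.IsBounded Ω) (h0 : (0 : E3) ∈ Ω)
    (T : ℝ) (hT : 0 < T) :
    ∃ P : Par, P.T = T ∧ Metric.closedBall 0 (2 * P.d) ⊆ Ω ∧
      ∃ (ρ₀ : L2S Ω) (f : ℝ → L2V Ω), ClsS ρ₀ P.rho0 ∧ (∀ t, ClsV (f t) (P.f t)) ∧
      StronglyMeasurable f ∧ (∃ K, ∀ t, ‖f t‖ ≤ K) ∧
      ∃ (ρ₁ ρ₂ : ℝ → L2S Ω) (u₁ u₂ : ℝ → L2V Ω) (G₁ G₂ : ℝ → L2M Ω),
        IsMHDSolution Ω T (fun _ => 1) (fun _ => 1) f ρ₀ 0 0 ρ₁ u₁ (fun _ => 0) G₁ (fun _ => 0) ∧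
        IsMHDSolution Ω T (fun _ => 1) (fun _ => 1) f ρ₀ 0 0 ρ₂ u₂ (fun _ => 0) G₂ (fun _ => 0) ∧
        (∀ t ∈ Icc 0 T, (1 / 2) * (∫ x in Ω, ρ₁ t x * ‖u₁ t x‖ ^ 2)
            + (∫ s in (0 : ℝ)..t, ‖G₁ s‖ ^ 2)
          ≤ ∫ s in (0 : ℝ)..t, ∫ x in Ω, ρ₁ s x * ⟪f s x, u₁ s x⟫_ℝ) ∧
        (∀ t ∈ Icc 0 T, (1 / 2) * (∫ x in Ω, ρ₂ t x * ‖u₂ t x‖ ^ 2)
            + (∫ s in (0 : ℝ)..t, ‖G₂ s‖ ^ 2)
          ≤ ∫ s in (0 : ℝ)..t, ∫ x in Ω, ρ₂ s x * ⟪f s x, u₂ s x⟫_ℝ) ∧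
        ∃ t ∈ Icc 0 T, u₁ t ≠ u₂ t := by
  -- the radius
  obtain ⟨d, hd0, hd1, hd⟩ : ∃ d : ℝ, 0 < d ∧ d ≤ 1 ∧ Metric.closedBall (0 : E3) (2 * d) ⊆ Ω := by
    obtain ⟨ε, hε, h⟩ := Metric.isOpen_iff.mp hΩ 0 h0
    refine ⟨min (ε / 4) 1, by positivity, min_le_right _ _, ?_⟩
    refine (Metric.closedBall_subset_ball ?_).trans h
    have := min_le_left (ε / 4) 1
    linarith
  obtain ⟨P, hPd, hPT, γ, hγ, hest⟩ := est Ω d T hΩ hb hd0 hd1 hd hT
  subst hPd hPT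
  obtain ⟨ψ, hψ, hψd⟩ := dense_holds Ω hΩ
  obtain ⟨fL, hfL, hfm, hfK⟩ := forceL_holds prof_holds bump_holds force P Ω hΩ.measurableSet
  obtain ⟨-, hr0m, -, hr12, -⟩ := conv_holds P 1 (Or.inl rfl)
  have hfin := finite_restrict hb
  have hmem : MemLp P.rho0 2 (volume.restrict Ω) := by
    refine MemLp.of_bound hr0m.aestronglyMeasurable 2 (Eventually.of_forall fun x => ?_)
    rcases hr12 x with h | h <;> rw [h] <;> norm_num
  have hcls : ClsS (hmem.toLp P.rho0) P.rho0 := hmem.coeFn_toLp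
  obtain ⟨ρ₁, u₁, G₁, S1, i1, z1, e1, p1⟩ := one_sign gal lim conv_holds force basis_holds
    (w_holds prof_holds) hΩ hb hd
    hest hψ hψd hcls hfL hfm (Or.inl rfl : (1 : ℝ) = 1 ∨ (1 : ℝ) = -1)
  obtain ⟨ρ₂, u₂, G₂, S2, i2, z2, e2, p2⟩ := one_sign gal lim conv_holds force basis_holds
    (w_holds prof_holds) hΩ hb hd
    hest hψ hψd hcls hfL hfm (Or.inr rfl : (-1 : ℝ) = 1 ∨ (-1 : ℝ) = -1)
  refine ⟨P, rfl, hd, hmem.toLp P.rho0, fL, hcls, hfL, hfm, hfK, ρ₁, ρ₂, u₁, u₂, G₁, G₂,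
    ?_, ?_, e1, e2, ?_⟩
  · have := isMHD_of_int testR_holds testM_holds hΩ hb hT S1 z1
    rwa [i1] at this
  · have := isMHD_of_int testR_holds testM_holds hΩ hb hT S2 z2
    rwa [i2] at this
  · by_contra hcon
    push Not at hcon
    have hG : ∀ᵐ t ∂(volume.restrict (Ioc 0 P.T)), G₁ t = G₂ t := by
      filter_upwards [S1.grad, S2.grad, ae_restrict_mem measurableSet_Ioc] with t g1 g2 ht
      rw [hcon t (Ioc_subset_Icc_self ht)] at g1
      have h1 : (u₂ t, G₁ t) - (u₂ t, G₂ t) ∈ graphW Ω :=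
        (graphW Ω).sub_mem (mem_graphW.mpr g1) (mem_graphW.mpr g2)
      rw [Prod.mk_sub_mk, sub_self] at h1
      exact sub_eq_zero.mp (graphW_uniq hΩ _ h1)
    have hI : ∫ t in P.t 1..P.T, ∫ x in Ω, ⟪G₁ t x, jac (P.W 0) x⟫_ℝ
        = ∫ t in P.t 1..P.T, ∫ x in Ω, ⟪G₂ t x, jac (P.W 0) x⟫_ℝ := by
      have hle : P.t 1 ≤ P.T := (P.t_succ_lt 0).le
      rw [intervalIntegral.integral_of_le hle, intervalIntegral.integral_of_le hle]
      refine integral_congr_ae ?_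
      have h1 : (volume.restrict (Ioc (P.t 1) P.T) : Measure ℝ) ≤ volume.restrict (Ioc 0 P.T) :=
        Measure.restrict_mono (Ioc_subset_Ioc_left (P.t_pos 1).le) le_rfl
      filter_upwards [ae_mono h1 hG] with t ht
      rw [ht]
    rw [hI] at p1
    linarith

end Pool.Agent.H362.MH
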